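import Pool.Agent.Helper61.QE.St1

/-!
# Project QD (MP_d112a4_gt), PART E, module ENT: bounded entries
-/

open MeasureTheory Set Filter Topology Complex
open scoped ContDiff ComplexConjugate ENNReal

namespace Pool.Agent.Helper74.QE

open Pool.Agent.Helper68.QC Pool.Agent.Helper61.QE

/-- the real estimates -/
private theorem ent_real {c p g K ρ m : ℝ} (hc : 0 < c) (hρ : 1 < ρ) (hK : 1 ≤ K) (hm : 0 < m)
    (hp : m ≤ p) (hg : m ≤ g) (hp' : p ≤ K * ρ) (hg' : g ≤ K + K * ρ)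
    (h : c ^ 2 * p * g = 1) : c ≤ 1 / m ∧ 1 ≤ c * (K * (1 + ρ)) := by
  have hp0 : 0 < p := hm.trans_le hp
  have hg0 : 0 < g := hm.trans_le hg
  have hc2 : 0 < c ^ 2 := by positivity
  constructor
  · rw [le_div_iff₀ hm]
    have h1 : (c * m) ^ 2 ≤ 1 ^ 2 := by
      have h2 : m * m ≤ p * g := mul_le_mul hp hg hm.le hp0.le
      calc (c * m) ^ 2 = c ^ 2 * (m * m) := by ring
        _ ≤ c ^ 2 * (p * g) := mul_le_mul_of_nonneg_left h2 hc2.le
        _ = c ^ 2 * p * g := by ring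
        _ = 1 ^ 2 := by rw [h, one_pow]
    exact le_of_sq_le_sq h1 (by norm_num)
  · have h2 : p * g ≤ (K * ρ) * (K + K * ρ) := mul_le_mul hp' hg' hg0.le (by positivity)
    have h3 : (K * ρ) * (K + K * ρ) ≤ (K * (1 + ρ)) ^ 2 := by nlinarith [sq_nonneg K]
    have h1 : (1 : ℝ) ^ 2 ≤ (c * (K * (1 + ρ))) ^ 2 := by
      calc (1 : ℝ) ^ 2 = c ^ 2 * (p * g) := by rw [one_pow, ← h]; ring
        _ ≤ c ^ 2 * (K * (1 + ρ)) ^ 2 := mul_le_mul_of_nonneg_left (h2.trans h3) hc2.le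
        _ = (c * (K * (1 + ρ))) ^ 2 := by ring
    exact le_of_sq_le_sq h1 (by positivity)

/-- ENT -/
theorem pENT (hSUB : Pool.Agent.Helper61.QE.StSUB) (hGRW : Pool.Agent.Helper61.QE.StGRW)
    (hMBF : Pool.Agent.Helper61.QE.StMBF) : Pool.Agent.Helper61.QE.StENT := by
  intro A hA hA10 M
  obtain ⟨-, -, -, s4, s5, -, -, s8, -, -⟩ := hSUB
  have hn10 : 0 < ‖A 1 0‖ := norm_pos_iff.2 hA10
  obtain ⟨ρ, hρd⟩ : ∃ ρ, ρ = ‖cn A‖ := ⟨_, rfl⟩
  have hρ : ρ = ‖A 0 0‖ / ‖A 1 0‖ := by rw [hρd]; unfold cn; rw [norm_div]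
  have hplA : ‖pl A‖ = ρ := by
    rw [hρ]
    unfold pl
    rw [norm_div, norm_neg, hA.1, RCLike.norm_conj]
  have hρ1 : 1 < ρ := by
    rw [hρ, one_lt_div hn10]
    have h := s8 A hA
    have h1 : ‖A 1 0‖ ^ 2 < ‖A 0 0‖ ^ 2 := by linarith
    exact lt_of_pow_lt_pow_left₀ 2 (norm_nonneg _) h1
  obtain ⟨K, hKd⟩ : ∃ K, K = max M 1 := ⟨_, rfl⟩
  have hK : 1 ≤ K := by rw [hKd]; exact le_max_right _ _
  obtain ⟨m, hmd⟩ : ∃ m, m = (ρ - 1) ^ 2 / ρ / 4 := ⟨_, rfl⟩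
  have hm : 0 < m := by
    rw [hmd]
    have : 0 < ρ - 1 := by linarith
    positivity
  have hK0 : 0 < K := by linarith
  have hρ0 : 0 < ρ := by linarith
  refine ⟨1 / m + K * ρ * (1 / m) + ((K * ρ * (1 / m)) * (K * ρ * (1 / m)) + 1) *
    (K * (1 + ρ)) + K * (1 + ρ), by positivity, ?_⟩
  intro G hG B hI
  obtain ⟨i1, i2, i3, i4⟩ := hI
  have hB10 : B 1 0 ≠ 0 := fun h => hA10 (i3.2 h)
  obtain ⟨⟨-, -, -, hM, -, -⟩, g2, g3, -⟩ := hGRW M G hG
  have hKM : K = M := by rw [hKd]; exact max_eq_left hM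
  have hq : cn B = G (cn A) := (i4 hA10).symm
  have hp : pl B = G (pl A) := by
    have h1 : den A (pl A) = 0 := by
      unfold den pl
      field_simp
      ring
    have h2 := (i1 (pl A)).1 h1
    unfold den at h2
    unfold pl at h2 ⊢
    rw [div_eq_iff hB10]
    linear_combination -h2
  have hcnD : cn A ∈ Dx := by
    change 1 < ‖cn A‖
    rw [← hρd]
    exact hρ1
  have hplD : pl A ∈ Dx := by
    change 1 < ‖pl A‖
    rw [hplA]
    exact hρ1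
  have hd0 : den A 0 ≠ 0 := s4 A hA 0 (by rw [norm_zero]; exact zero_le_one)
  have hm0 : ‖mob A 0‖ ≤ 1 := by
    have h := s5 A hA 0 hd0
    rw [norm_zero] at h
    have h1 : 0 < ‖den A 0‖ ^ 2 := by
      have := norm_pos_iff.2 hd0
      positivity
    have h2 : 0 < 1 - ‖mob A 0‖ ^ 2 := by
      by_contra h3
      rw [not_lt] at h3
      have h4 := mul_nonpos_of_nonpos_of_nonneg h3 h1.le
      rw [h] at h4
      norm_num at h4
    nlinarith [norm_nonneg (mob A 0)]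
  have hp1 : ‖pl B‖ ≤ K * ρ := by
    have h := g2 (pl A) hplD
    rwa [hplA, ← hp, ← hKM] at h
  have hq1 : ‖cn B‖ ≤ K * ρ := by
    have h := g2 (cn A) hcnD
    rwa [← hρd, ← hq, ← hKM] at h
  have hp2 : m ≤ ‖pl B‖ := by
    have h := g3 (pl A) hplD 0 (by rw [norm_zero]; exact zero_le_one)
    rw [hG.zero, sub_zero, hplA, ← hp] at h
    rw [hmd]
    linarith
  have hB0 : G (mob A 0) = mob B 0 := by
    have h := i2 0 hd0
    rwa [hG.zero] at h
  have hg1 : m ≤ ‖mob B 0 - cn B‖ := by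
    have h := g3 (cn A) hcnD (mob A 0) hm0
    rw [← hρd, ← hq, hB0, norm_sub_rev] at h
    rw [hmd]
    linarith
  have hg2 : ‖mob B 0 - cn B‖ ≤ K + K * ρ := by
    have h := norm_sub_le (mob B 0) (cn B)
    have h1 : ‖mob B 0‖ ≤ K := by
      rw [← hB0, hKM]
      exact hG.le _ hm0
    linarith
  have hpl0 : (0 : ℂ) ≠ pl B := by
    intro h
    rw [← h, norm_zero] at hp2
    linarith
  have hc0 : 0 < ‖B 1 0‖ := norm_pos_iff.2 hB10
  have hmain : ‖B 1 0‖ ^ 2 * ‖pl B‖ * ‖mob B 0 - cn B‖ = 1 := by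
    rw [(hMBF B hB10).2.1 0 hpl0, norm_div, norm_neg, norm_one, norm_mul, norm_pow, zero_sub,
      norm_neg]
    have h1 : 0 < ‖pl B‖ := hm.trans_le hp2
    field_simp
  obtain ⟨e1, e2⟩ := ent_real hc0 hρ1 hK hm hp2 hg1 hp1 hg2 hmain
  have hm' : 0 < 1 / m := by positivity
  have x1 : 0 < K * ρ * (1 / m) := by positivity
  have x2 : 0 < K * (1 + ρ) := by positivity
  have x3 : 0 < ((K * ρ * (1 / m)) * (K * ρ * (1 / m)) + 1) * (K * (1 + ρ)) := by positivity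
  have b00 : ‖B 0 0‖ ≤ K * ρ * (1 / m) := by
    have h : B 0 0 = cn B * B 1 0 := by unfold cn; field_simp
    rw [h, norm_mul]
    exact mul_le_mul hq1 e1 (norm_nonneg _) (by positivity)
  have b11 : ‖B 1 1‖ ≤ K * ρ * (1 / m) := by
    have h : B 1 1 = -(pl B * B 1 0) := by unfold pl; field_simp
    rw [h, norm_neg, norm_mul]
    exact mul_le_mul hp1 e1 (norm_nonneg _) (by positivity)
  have b01 : ‖B 0 1‖ ≤ ((K * ρ * (1 / m)) * (K * ρ * (1 / m)) + 1) * (K * (1 + ρ)) := by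
    have hdet : B 0 0 * B 1 1 - B 0 1 * B 1 0 = 1 := by
      have h := B.det_coe
      rwa [Matrix.det_fin_two] at h
    have h1 : ‖B 0 1‖ * ‖B 1 0‖ ≤ (K * ρ * (1 / m)) * (K * ρ * (1 / m)) + 1 := by
      rw [← norm_mul]
      have h2 : B 0 1 * B 1 0 = B 0 0 * B 1 1 - 1 := by linear_combination -hdet
      rw [h2]
      refine (norm_sub_le _ _).trans ?_
      rw [norm_mul, norm_one]
      have h3 := mul_le_mul b00 b11 (norm_nonneg _) x1.le
      linarith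
    calc ‖B 0 1‖ = ‖B 0 1‖ * 1 := (mul_one _).symm
      _ ≤ ‖B 0 1‖ * (‖B 1 0‖ * (K * (1 + ρ))) := mul_le_mul_of_nonneg_left e2 (norm_nonneg _)
      _ = (‖B 0 1‖ * ‖B 1 0‖) * (K * (1 + ρ)) := by ring
      _ ≤ _ := mul_le_mul_of_nonneg_right h1 x2.le
  refine ⟨?_, ?_, hq, hp⟩
  · intro i j
    fin_cases i <;> fin_cases j
    · change ‖B 0 0‖ ≤ _
      linarith
    · change ‖B 0 1‖ ≤ _
      linarith
    · change ‖B 1 0‖ ≤ _
      linarith
    · change ‖B 1 1‖ ≤ _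
      linarith
  · have h1 : K * (1 + ρ) ≤ 1 / m + K * ρ * (1 / m) + ((K * ρ * (1 / m)) * (K * ρ * (1 / m)) + 1) *
        (K * (1 + ρ)) + K * (1 + ρ) := by linarith
    refine (inv_anti₀ x2 h1).trans ?_
    rw [inv_eq_one_div, div_le_iff₀ x2]
    exact e2

end Pool.Agent.Helper74.QE
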